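import Pool.Agent.Helper92.OS.Tally

/-!
# Unit open shop with batch setups is not fixed-parameter tractable in the number of batches
-/

set_option autoImplicit false

namespace Pool.Agent.Results.MP_124ac8_lc.BatchSetupNotFPT

open Pool.Agent.Helper92.OS

/-- The minimum makespan of unit open shop with sequence-dependent batch setup times cannot be
computed in time `f g * |I| ^ c`, not even in time `f g * |I| ^ h g` on instances all of whose
batches consist of one job (numbers in binary); if the number of machines and the setup times are
measured in unary, an algorithm with such a running time puts every tally language of NP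
into P. -/
theorem result :
    (∀ I : Instance, I.Valid → ∃ C : ℕ, IsMinMakespan I C) ∧
    (∀ (f : ℕ → ℕ) (c : ℕ),
      IsEmpty (Algorithm (fun _ => True) (fun I => f I.g * (enc I).length ^ c))) ∧
    (∀ f h : ℕ → ℕ,
      IsEmpty (Algorithm (fun I => I.n = I.g) (fun I => f I.g * (enc I).length ^ h I.g))) ∧
    (∀ f h : ℕ → ℕ,
      Nonempty (Algorithm (fun I => I.n = I.g) (fun I => f I.g * unarySize I ^ h I.g)) →
      ∀ V : Verifier, TallyP V.lang) := by
  refine ⟨exists_min, ?_, no_xp, ?_⟩
  · intro f c
    refine ⟨fun A => (no_xp f (fun _ => c)).false ?_⟩
    exact { M := A.M, fin := A.fin, inp := A.inp, inp_inj := A.inp_inj, out := A.out,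
            out_inj := A.out_inj, correct := fun I hI _ C hC => A.correct I hI trivial C hC }
  · rintro f h ⟨A⟩ V
    exact tally f h A V

end Pool.Agent.Results.MP_124ac8_lc.BatchSetupNotFPT
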